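import Pool.Agent.H74.BRB.Stmts

/-!
# BRB: FLX, flux bound with a test function
-/

set_option autoImplicit false

namespace Pool.BRB

namespace FLX65

theorem inc_fin {f : ℤ × ℤ → ℝ} {c : ℝ} (h : {v | f v ≠ c}.Finite) :
    {e | inc f e ≠ 0}.Finite := by
  classical
  have h1 : ({v | f v ≠ c} ×ˢ (Set.univ : Set Bool)).Finite := h.prod Set.finite_univ
  have h2 : ((fun e : (ℤ × ℤ) × Bool => (e.1 - (if e.2 then (0, 1) else (1, 0)), e.2)) ''
      ({v | f v ≠ c} ×ˢ (Set.univ : Set Bool))).Finite := h1.image _
  refine (h1.union h2).subset ?_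
  rintro ⟨v, b⟩ he
  by_cases h3 : f v = c
  · right
    refine ⟨(v + (if b then (0, 1) else (1, 0)), b), ⟨?_, Set.mem_univ _⟩, ?_⟩
    · intro h4
      apply he
      have h4' : f (v + (if b then (0, 1) else (1, 0))) = c := h4
      unfold inc
      show f (v + (if b then (0, 1) else (1, 0))) - f v = 0
      rw [h4', h3, sub_self]
    · show (v + (if b then (0, 1) else (1, 0)) - (if b then (0, 1) else (1, 0)), b) = (v, b)
      rw [add_sub_cancel_right]
  · left
    exact ⟨h3, Set.mem_univ _⟩

theorem summ (M : Board) {g f : ℤ × ℤ → ℝ} (h : {e | inc g e ≠ 0}.Finite) :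
    Summable (fun e : (ℤ × ℤ) × Bool => if M e = true then inc g e * inc f e else 0) := by
  apply summable_of_finite_support
  refine h.subset ?_
  intro e he h0
  apply he
  show (if M e = true then inc g e * inc f e else 0) = 0
  rw [h0, zero_mul, ite_self]

end FLX65

open FLX65

theorem FLX (h1 : SBPStmt) (h2 : ENGStmt) (h3 : UPRStmt) (h4 : UPOStmt) : FLXStmt := by
  intro M d g n hg hgd
  obtain ⟨-, hd0, -, -, hlap⟩ := h3 M d
  have hPot := (h4 M d).1 n
  have hE := h2 M d (uu M d n) hPot
  have hS := h1 M g (uu M d n) hg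
  have hgs : ∀ F : ℤ × ℤ → ℝ, Summable (fun v => g v * F v) := by
    intro F
    apply summable_of_finite_support
    refine hg.subset ?_
    intro v hv h0
    apply hv
    show g v * F v = 0
    rw [h0, zero_mul]
  -- the left side
  have hL : ∑' v : ℤ × ℤ, g v * Lap M (uu M d n) v = Lap M (uu M d n) d +
      4 * (∑' v, g v * uu M d (n + 1) v - ∑' v, g v * uu M d n v) := by
    classical
    have e1 : ∀ v, g v * Lap M (uu M d n) v = (if v = d then Lap M (uu M d n) d else 0) +
        4 * (g v * uu M d (n + 1) v - g v * uu M d n v) := by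
      intro v
      by_cases hv : v = d
      · subst hv
        rw [if_pos rfl, hgd, hd0, hd0]
        ring
      · rw [if_neg hv, hlap n v hv]
        ring
    rw [tsum_congr e1, Summable.tsum_add, tsum_ite_eq, tsum_mul_left,
      Summable.tsum_sub (hgs _) (hgs _)]
    · exact (hasSum_ite_eq d _).summable
    · exact ((hgs _).sub (hgs _)).mul_left 4
  -- the right side
  have ig := inc_fin (f := g) (c := 0) hg
  have iu := inc_fin hPot.2.2.1
  have hR : - En M g (uu M d n) ≤ (En M g g + En M (uu M d n) (uu M d n)) / 2 := by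
    unfold En
    rw [← tsum_neg, ← Summable.tsum_add (summ M ig) (summ M iu), ← tsum_div_const]
    refine Summable.tsum_le_tsum ?_ (summ M ig).neg (((summ M ig).add (summ M iu)).div_const 2)
    intro e
    by_cases he : M e = true
    · simp only [he, if_true]
      nlinarith [sq_nonneg (inc g e + inc (uu M d n) e)]
    · simp [he]
  rw [hL] at hS
  linarith

end Pool.BRB
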